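import Pool.Agent.Helper52.SM.Goals
import Pool.Agent.Helper79.PM.PML
import Pool.Agent.Helper89.PM.PMT

/-!
# Project SM, packet BRM: brute force for few coins
-/

set_option autoImplicit false

namespace Pool.Agent.Helper44.SM

open Pool.Agent.Helper81.CC Pool.Agent.Helper78 Pool.Agent.Helper52.SM

/-- The coins in a list. -/
def cl (r : List Bool) (v : ℕ) : Bool := r.getD v false

theorem cl_ofFn {m : ℕ} (y : Fin m → Bool) : cl (List.ofFn y) = PM.coins y := by
  funext v
  unfold cl PM.coins
  rw [List.getD_eq_getElem?_getD, List.getElem?_ofFn]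
  split_ifs <;> rfl

/-- The answer for the coins in a list. -/
theorem pt_ans (A : PM.Machine) (c : ℕ) : PolyTime fun z : List Bool × List Bool =>
    PM.FK A c z.1 0 0 (fun _ => 0) (cl z.2) := by
  have hb : PolyTime (fun z : (List Bool × List Bool) × ℕ => cl z.1.2 z.2) := by
    unfold cl
    exact PolyTime.getD (by fun_prop) (by fun_prop) (PolyTime.const _)
  exact Pool.Agent.Helper89.PM.pmt A c (List Bool × List Bool) (fun z => z.1) (fun _ => 0)
    (fun _ => 0) (fun _ _ => 0) (fun z => cl z.2) (by fun_prop) (PolyTime.const _)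
    (PolyTime.const _) (PolyTime.const _) hb

/-- **BRM.** Brute force for few coins. -/
theorem brm : BrmStmt := by
  intro A c M
  set S : List (List Bool) := (List.finite_length_le Bool M).toFinset.toList with hS
  have hans : ∀ (x : List Bool) (y : Fin (A.m x) → Bool),
      PM.FK A c x 0 0 (fun _ => 0) (cl (List.ofFn y)) = A.out (x, PM.results A c x (PM.coins y)) := by
    intro x y
    rw [Pool.Agent.Helper79.PM.pmr, cl_ofFn]
  refine ⟨fun x => (S.find? fun r => decide (r.length = A.m x) &&
    PM.FK A c x 0 0 (fun _ => 0) (cl r)).getD [], ?_, ?_⟩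
  · refine PolyTime.option_getD ?_ (by fun_prop)
    refine PolyTime.find? (l := fun _ => S)
      (f := fun (x : List Bool) r => decide (r.length = A.m x) &&
        PM.FK A c x 0 0 (fun _ => 0) (cl r)) (by fun_prop) ?_
    have h1 := pt_ans A c
    have h2 : PolyTime fun z : List Bool × List Bool => A.m z.1 :=
      PolyTime.comp (Pool.Agent.Helper89.PM.pt_m A) (by fun_prop)
    exact PolyTime.and (PolyTime.decide_eq (by fun_prop) h2) h1
  · rintro x hn ⟨y, hy⟩
    have hmem : List.ofFn y ∈ S := by
      rw [hS, Finset.mem_toList, Set.Finite.mem_toFinset]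
      simpa using hn
    have hsome : (S.find? fun r => decide (r.length = A.m x) &&
        PM.FK A c x 0 0 (fun _ => 0) (cl r)).isSome := by
      rw [List.find?_isSome]
      refine ⟨_, hmem, ?_⟩
      rw [hans, hy, List.length_ofFn]
      simp
    obtain ⟨r', hr'⟩ := Option.isSome_iff_exists.1 hsome
    have h2 := List.find?_some hr'
    simp only [Bool.and_eq_true, decide_eq_true_eq] at h2
    obtain ⟨h3, h4⟩ := h2
    have h5 : List.ofFn (fun i : Fin (A.m x) => r'.get (Fin.cast h3.symm i)) = r' := by
      apply List.ext_getElem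
      · rw [List.length_ofFn, h3]
      · intro i h6 h7
        simp
    refine ⟨fun i => r'.get (Fin.cast h3.symm i), ?_, ?_⟩
    · rw [← hans, h5]; exact h4
    · rw [h5]
      show (S.find? fun r => decide (r.length = A.m x) &&
        PM.FK A c x 0 0 (fun _ => 0) (cl r)).getD [] = r'
      rw [hr']; rfl

end Pool.Agent.Helper44.SM
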